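import Pool.Agent.Helper78.LapRatioMain6

set_option autoImplicit false

namespace Pool.Agent.Results.MP_70d11c_co.BothQuestions

open Helper78.LapRatio Filter Topology

/-- The set of values of the Laplacian ratio over trees on `n` labelled vertices with diameter
at most `k`. -/
def ratiosDiam (n k : ℕ) : Set ℝ :=
  {x : ℝ | ∃ T : SimpleGraph (Fin n), T.IsTree ∧ (∀ a b, T.dist a b ≤ k) ∧ lapRatio T = x}

/-- The set of values of the Laplacian ratio over trees on `n` labelled vertices with matching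
number at most `k`. -/
def ratiosMatching (n k : ℕ) : Set ℝ :=
  {x : ℝ | ∃ T : SimpleGraph (Fin n), T.IsTree ∧ MatchingNumberLE T k ∧ lapRatio T = x}

/-- The maximum of the Laplacian ratio over trees on `n` vertices with matching number at most `k`. -/
noncomputable def maxRatio (n k : ℕ) : ℝ := sSup (ratiosMatching n k)

/-- First question for diameter at most `2`, `3`, `4` and all `n`; second question for matching
number at most `1`, `2` and all `n`, and for every `k ≥ 3` and all large `n`, with the extremal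
trees and the exact second-order asymptotics. -/
theorem result :
    ((∀ n : ℕ, 2 ≤ n → IsGreatest (ratiosDiam n 2) 2) ∧
      (∀ n : ℕ, 2 ≤ n →
        IsGreatest (ratiosDiam n 3) (4 - 2 * ((n : ℝ) - 1) / ((n ^ 2 / 4 : ℕ) : ℝ))) ∧
      (∀ m : ℕ, 1 ≤ m → IsGreatest (ratiosDiam (2 * m + 1) 4) (2 * (3 / 2 : ℝ) ^ (m - 1))) ∧
      (∀ m : ℕ, 1 ≤ m → IsGreatest (ratiosDiam (2 * m + 2) 4)
        ((3 / 2 : ℝ) ^ (m - 1) *
          max (2 * (10 * (m : ℝ) - 1) / (9 * (m : ℝ))) ((2 * (m : ℝ) + 3) / ((m : ℝ) + 1))))) ∧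
    (∀ n k : ℕ, 1 ≤ n → 1 ≤ k → IsGreatest (ratiosMatching n k) (maxRatio n k)) ∧
    (∀ n : ℕ, 2 ≤ n → maxRatio n 1 = 2) ∧
    (∀ n : ℕ, 3 ≤ n → maxRatio n 2 = 4 - ((n : ℝ) - 1) / (((n - 1) ^ 2 / 4 : ℕ) : ℝ)) ∧
    (∀ k : ℕ, 3 ≤ k → ∃ N : ℕ, ∀ n ≥ N,
      IsGreatest {x : ℝ | ∃ d : ℕ, k - 1 ≤ d ∧ d ≤ n - k ∧ x = Phi k d (n - 1 - d)}
        (maxRatio n k) ∧
      ∀ T : SimpleGraph (Fin n), T.IsTree → MatchingNumberLE T k → lapRatio T = maxRatio n k →
        ∃ (C : Finset (Fin n)) (r : Fin n) (y : Fin n → Fin n), C.card = k ∧ IsSpider T C r y) ∧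
    (∀ n k : ℕ, 3 ≤ n → 2 ≤ k → k ≤ n →
      (∀ d : ℕ, k - 1 ≤ d → d ≤ n - k → Phi k d (n - 1 - d) ≤ maxRatio n k) ∧
      maxRatio n k ≤ 2 ^ k *
        Real.exp (-((((k : ℝ) - 1) + Real.sqrt ((k : ℝ) - 1)) ^ 2 / (4 * ((n : ℝ) + k - 2))))) ∧
    (∀ k : ℕ, 1 ≤ k →
      Tendsto (fun n : ℕ => (n : ℝ) * (2 ^ k - maxRatio n k)) atTop
        (𝓝 (2 ^ k * (((k : ℝ) - 1) + Real.sqrt ((k : ℝ) - 1)) ^ 2 / 4))) :=
  ⟨⟨fun n hn => diam_two n hn, fun n hn => diam_three n hn, fun m hm => diam4_odd m hm,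
      fun m hm => diam4_even m hm⟩,
    fun n k hn hk => SM_isGreatest n k hn hk, fun n hn => max_one n hn,
    fun n hn => (nu_two n hn).csSup_eq, fun k hk => exact_large_phi k hk,
    fun n k hn hk hkn => two_sided n k hn hk hkn,
    fun k hk => tendsto_max k hk⟩

end Pool.Agent.Results.MP_70d11c_co.BothQuestions
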