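import Pool.Agent.Helper78.LapRatioMain5

set_option autoImplicit false

namespace Pool.Agent.Results.MP_70d11c_co.LargeOrder

open Helper78.LapRatio Filter Topology

/-- The set of values of the Laplacian ratio over trees on `n` labelled vertices with matching
number at most `k`. -/
def ratiosMatching (n k : ℕ) : Set ℝ :=
  {x : ℝ | ∃ T : SimpleGraph (Fin n), T.IsTree ∧ MatchingNumberLE T k ∧ lapRatio T = x}

/-- The maximum of the Laplacian ratio over trees on `n` vertices with matching number at most `k`. -/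
noncomputable def maxRatio (n k : ℕ) : ℝ := sSup (ratiosMatching n k)

/-- Second question for every fixed `k` and all large `n`: the maximum is the largest value of the
explicit function `Phi k d (n-1-d)`, `k-1 ≤ d ≤ n-k`, and every extremal tree is a spider of
stars; exact values for `k = 1, 2` and all `n`; exact second-order asymptotics. -/
theorem result :
    (∀ n k : ℕ, 1 ≤ n → 1 ≤ k → IsGreatest (ratiosMatching n k) (maxRatio n k)) ∧
    (∀ n : ℕ, 2 ≤ n → maxRatio n 1 = 2) ∧
    (∀ n : ℕ, 3 ≤ n → maxRatio n 2 = 4 - ((n : ℝ) - 1) / (((n - 1) ^ 2 / 4 : ℕ) : ℝ)) ∧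
    (∀ k : ℕ, 3 ≤ k → ∃ N : ℕ, ∀ n ≥ N,
      IsGreatest {x : ℝ | ∃ d : ℕ, k - 1 ≤ d ∧ d ≤ n - k ∧ x = Phi k d (n - 1 - d)}
        (maxRatio n k) ∧
      ∀ T : SimpleGraph (Fin n), T.IsTree → MatchingNumberLE T k → lapRatio T = maxRatio n k →
        ∃ (C : Finset (Fin n)) (r : Fin n) (y : Fin n → Fin n), C.card = k ∧ IsSpider T C r y) ∧
    (∀ k : ℕ, 1 ≤ k →
      Tendsto (fun n : ℕ => (n : ℝ) * (2 ^ k - maxRatio n k)) atTop
        (𝓝 (2 ^ k * (((k : ℝ) - 1) + Real.sqrt ((k : ℝ) - 1)) ^ 2 / 4))) :=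
  ⟨fun n k hn hk => SM_isGreatest n k hn hk, fun n hn => max_one n hn,
    fun n hn => (nu_two n hn).csSup_eq, fun k hk => exact_large_phi k hk,
    fun k hk => tendsto_max k hk⟩

end Pool.Agent.Results.MP_70d11c_co.LargeOrder
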