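import Pool.Agent.Helper78.LapRatioMain3

set_option autoImplicit false

namespace Pool.Agent.Results.MP_70d11c_co.SecondOrder

open Helper78.LapRatio Filter Topology

/-- The set of values of the Laplacian ratio over trees on `n` labelled vertices with matching
number at most `k`. -/
def ratiosMatching (n k : ℕ) : Set ℝ :=
  {x : ℝ | ∃ T : SimpleGraph (Fin n), T.IsTree ∧ MatchingNumberLE T k ∧ lapRatio T = x}

/-- The maximum of the Laplacian ratio over trees on `n` vertices with matching number at most `k`. -/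
noncomputable def maxRatio (n k : ℕ) : ℝ := sSup (ratiosMatching n k)

/-- For every fixed `k ≥ 1` the maximum Laplacian ratio over trees on `n` vertices with matching
number at most `k` is `2^k (1 - ((k-1)+√(k-1))²/(4n) + o(1/n))`; moreover an explicit upper bound
for all `n` and `k`. -/
theorem result :
    (∀ n k : ℕ, 1 ≤ n → 1 ≤ k → IsGreatest (ratiosMatching n k) (maxRatio n k)) ∧
    (∀ k : ℕ, 1 ≤ k →
      Tendsto (fun n : ℕ => (n : ℝ) * (2 ^ k - maxRatio n k)) atTop
        (𝓝 (2 ^ k * (((k : ℝ) - 1) + Real.sqrt ((k : ℝ) - 1)) ^ 2 / 4))) ∧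
    (∀ n k : ℕ, 3 ≤ n → 2 ≤ k → k ≤ n →
      maxRatio n k ≤ 2 ^ k *
        Real.exp (-((((k : ℝ) - 1) + Real.sqrt ((k : ℝ) - 1)) ^ 2 / (4 * ((n : ℝ) + k - 2))))) := by
  refine ⟨fun n k hn hk => SM_isGreatest n k hn hk, fun k hk => tendsto_max k hk, ?_⟩
  intro n k hn hk hkn
  refine csSup_le (SM_nonempty n k (by omega) (by omega)) ?_
  rintro _ ⟨T, hT, hM, rfl⟩
  exact upper_exp T hT hn hk hkn hM

end Pool.Agent.Results.MP_70d11c_co.SecondOrder
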