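import Pool.Agent.Helper78.LapRatioMain

set_option autoImplicit false

namespace Pool.Agent.Results.MP_70d11c_co.SmallCases

open Helper78.LapRatio

/-- The set of values of the Laplacian ratio over trees on `n` labelled vertices with matching
number at most `k`. -/
def ratiosMatching (n k : ℕ) : Set ℝ :=
  {x : ℝ | ∃ T : SimpleGraph (Fin n), T.IsTree ∧ MatchingNumberLE T k ∧ lapRatio T = x}

/-- The set of values of the Laplacian ratio over trees on `n` labelled vertices with diameter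
at most `k`. -/
def ratiosDiam (n k : ℕ) : Set ℝ :=
  {x : ℝ | ∃ T : SimpleGraph (Fin n), T.IsTree ∧ (∀ a b, T.dist a b ≤ k) ∧ lapRatio T = x}

/-- Maximum Laplacian ratio of trees: for matching number at most `k` it is at most `2 ^ k` and at
least `2 ^ k (1 - k ^ 3 / n)`; it is determined exactly for matching number at most `2` and for
diameter at most `3`. -/
theorem result :
    (∀ n k : ℕ, 2 ≤ n → ∀ x ∈ ratiosMatching n k, x ≤ 2 ^ k) ∧
    (∀ n k : ℕ, 1 ≤ k → 2 * k ≤ n → ∃ x ∈ ratiosMatching n k,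
      (2 : ℝ) ^ k * (1 - (k : ℝ) ^ 3 / n) ≤ x) ∧
    (∀ n : ℕ, 3 ≤ n →
      IsGreatest (ratiosMatching n 2) (4 - ((n : ℝ) - 1) / (((n - 1) ^ 2 / 4 : ℕ) : ℝ))) ∧
    (∀ n : ℕ, 2 ≤ n →
      IsGreatest (ratiosDiam n 3) (4 - 2 * ((n : ℝ) - 1) / ((n ^ 2 / 4 : ℕ) : ℝ))) := by
  refine ⟨?_, ?_, fun n hn => nu_two n hn, fun n hn => diam_three n hn⟩
  · rintro n k hn _ ⟨T, hT, hk, rfl⟩
    exact upper_all hn T hT hk
  · intro n k hk hn
    obtain ⟨T, h1, h2, h3⟩ := lower_all hk hn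
    exact ⟨_, ⟨T, h1, h2, rfl⟩, h3⟩

end Pool.Agent.Results.MP_70d11c_co.SmallCases
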